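import Pool.Agent.Q30.AP.Main

/-!
# CAT(0) groups without `ℤ²` have aperiodic flats

Let `G` act geometrically on a proper CAT(0) space `X` and let `F` be a flat plane, the image of an
isometric embedding `f` of the Euclidean plane.  If `G` has no subgroup isomorphic to `ℤ²`, then
there are continuum many limits of translates `g F` of `F` which meet one ball, are pairwise not
parallel (even after moving one of them by an element of `G`), and none of which contains a periodic
ray: no ray of them is moved along itself, up to a bounded error, by an element of `G`.  So no ray of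
them is asymptotic to an axis of an element of `G`: the circle at infinity of such a flat contains
no endpoint of an axis.

In other words: if all limit flats of one flat have a ray asymptotic to an axis, then `G` contains
`ℤ²`.

Idea of the proof.  Take a minimal closed family `M` of parametrised flats in the closure of the
translates of `F`, invariant under `G` and under the isometries of the plane.  If the flats with a
periodic ray are not of first category in `M`, then for one `g` all flats of an open piece `O` of `M`
have a ray moved along itself by `g`.  Moving such a flat back by the powers of `g` one gets a flat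
with a whole line moved along itself by `g`, and it returns to `O`.  Using infinitely many returns
by the same element one shows that all rays obtained from returns are parallel to this line, or two
of them give two commuting elements with transverse directions.  If they are parallel, a conjugate
of `g` by a return of bounded length has a common power with `g` or with its inverse, of bounded
exponent.  Hence one power of `g` is normalised by enough returns, and moves the whole flat
along itself.  A flat with one period gives `ℤ²` by the closing theorem of the library.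
-/

set_option autoImplicit false

namespace Pool.Agent.Results.MP_140312_al.AperiodicFlats

open Set Pool.Agent.W620.FL Pool.Agent.Q30.AP

/-- The Euclidean plane. -/
abbrev Plane : Type := EuclideanSpace ℝ (Fin 2)

/-- The inequality of Bruhat and Tits: a complete metric space is CAT(0) if and only if any two
points `p`, `q` have a midpoint `m` such that
`d(x, m)² ≤ (d(x, p)² + d(x, q)²) / 2 - d(p, q)² / 4` for all `x`. -/
def BruhatTits (X : Type*) [MetricSpace X] : Prop := ∀ p q : X, ∃ m : X, ∀ x : X,
  dist x m ^ 2 ≤ (dist x p ^ 2 + dist x q ^ 2) / 2 - dist p q ^ 2 / 4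

/-- The limit flats of the flat parametrised by `f`: the closure, for pointwise convergence, of
the set of all isometric embeddings of the plane whose image is a translate `g • F` of the image
`F` of `f`. -/
def LimitFlats (G : Type*) {X : Type*} [Group G] [MetricSpace X] [MulAction G X]
    (f : Plane → X) : Set (Plane → X) :=
  closure {h : Plane → X | Isometry h ∧ ∃ g : G, range h = (fun x => g • x) '' range f}

/-- Two parametrised flats are parallel if they stay at bounded distance from each other after a
reparametrisation by an isometry of the plane. -/
def Parallel {X : Type*} [MetricSpace X] (f c : Plane → X) : Prop :=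
  ∃ (e : Plane ≃ᵢ Plane) (n : ℝ), ∀ z, dist (f z) (c (e z)) ≤ n

/-- The ray `f (a + t v)`, `t ≥ 0`, of the flat `f` is periodic: an element `g` of `G` moves it along
itself, by `‖v‖` and up to a bounded error. -/
def PeriodicRay {G X : Type*} [Group G] [MetricSpace X] [MulAction G X] (f : Plane → X) (g : G)
    (a v : Plane) : Prop := ∃ B : ℝ, ∀ i : ℕ, dist (g ^ i • f a) (f (a + (i : ℝ) • v)) ≤ B

/-- The geodesic line `c` is an axis of `g`, which translates it by `τ > 0`. -/
def IsAxis {G X : Type*} [Group G] [MetricSpace X] [MulAction G X] (g : G) (c : ℝ → X) : Prop :=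
  Isometry c ∧ ∃ τ : ℝ, 0 < τ ∧ ∀ t, g • c t = c (t + τ)

/-- Let `G` act geometrically (by isometries, properly discontinuously, cocompactly) on a proper
CAT(0) space `X` and let `f` be an isometric embedding of the Euclidean plane.  Then `G` contains a
subgroup isomorphic to `ℤ²`, or `f` has continuum many limit flats `Φ x` (`x` a sequence of zeros
and ones), all meeting one ball, such that `Φ x` is not parallel to any translate `g • Φ y`,
`g ∈ G`, for `x ≠ y`, no ray of `Φ x` is periodic, and no ray of `Φ x` is asymptotic to an axis of
an element of `G`. -/
theorem result {X : Type*} [MetricSpace X] [ProperSpace X] (hX : BruhatTits X)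
    {G : Type*} [Group G] [MulAction G X] [IsIsometricSMul G X] [ProperlyDiscontinuousSMul G X]
    (hcc : ∃ K : Set X, IsCompact K ∧ ∀ x : X, ∃ g : G, g • x ∈ K)
    (f : Plane → X) (hf : Isometry f) :
    (∃ φ : Multiplicative (ℤ × ℤ) →* G, Function.Injective φ) ∨
    ∃ (Φ : (ℕ → Bool) → (Plane → X)) (R : ℝ),
      (∀ x, Isometry (Φ x) ∧ Φ x ∈ LimitFlats G f ∧ dist (Φ x 0) (f 0) ≤ R) ∧
      (∀ x y, x ≠ y → ∀ g : G, ¬ Parallel (Φ x) (fun z => g • Φ y z)) ∧
      (∀ x, ∀ g : G, ∀ a v : Plane, v ≠ 0 → ¬ PeriodicRay (Φ x) g a v) ∧
      ∀ x, ∀ (g : G) (c : ℝ → X), IsAxis g c → ∀ (a v : Plane) (B : ℝ),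
        ∃ t : ℝ, 0 ≤ t ∧ B < dist (c t) (Φ x (a + t • v)) := by
  obtain ⟨K, hK, hGK⟩ := hcc
  set L : ℂ ≃ₗᵢ[ℝ] Plane := Complex.orthonormalBasisOneI.repr with hL
  set i : ℂ ≃ᵢ Plane := L.toIsometryEquiv with hi
  have hiL : ∀ z, i z = L z := fun z => rfl
  have hisL : ∀ z, i.symm z = L.symm z := fun z => rfl
  have hi0 : i.symm 0 = 0 := by rw [hisL]; exact map_zero L.symm
  set f' : ℂ → X := fun z => f (i z) with hf'
  have hf'i : Isometry f' := hf.comp i.isometry
  set S : Set (ℂ → X) :=
    closure {h : ℂ → X | Isometry h ∧ ∃ g : G, range h = (fun x => g • x) '' range f'} with hS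
  have hne : S.Nonempty := ⟨f', subset_closure ⟨hf'i, 1, by simp⟩⟩
  have hback : ∀ h ∈ S, (fun z => h (i.symm z)) ∈ LimitFlats G f := by
    intro h hh
    refine map_mem_closure (f := fun (h : ℂ → X) (z : Plane) => h (i.symm z)) ?_ hh ?_
    · exact continuous_pi fun z => continuous_apply (i.symm z)
    · rintro h ⟨h1, g, h2⟩
      refine ⟨h1.comp i.symm.isometry, g, ?_⟩
      have e1 : range (fun z => h (i.symm z)) = range h := i.symm.surjective.range_comp h
      have e2 : range f' = range f := i.surjective.range_comp f
      rw [e1, h2, e2]
  rcases aperiodic_complex hX (f 0) hK hGK (inv_closure (G := G) f') hne with h | h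
  · exact Or.inl h
  · right
    obtain ⟨Φ, R, h1, h2, h3, h4⟩ := h
    have hiso : ∀ x, Isometry (Φ x) := fun x => (inv_closure (G := G) f').isom _ (h1 x)
    have hper : ∀ x, ∀ g : G, ∀ a v : Plane, v ≠ 0 →
        ¬ PeriodicRay (fun z => Φ x (i.symm z)) g a v := by
      rintro x g a v hv ⟨B, hB⟩
      refine h4 x g B (i.symm a) (i.symm v) ?_ fun j => ?_
      · intro h0
        apply hv
        have : i (i.symm v) = i (i.symm 0) := by rw [h0, hi0]
        rwa [i.apply_symm_apply, i.apply_symm_apply] at this
      · have := hB j
        simp only [hisL, map_add, map_smul] at this ⊢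
        rw [Complex.real_smul] at this
        push_cast at this
        exact this
    refine ⟨fun x z => Φ x (i.symm z), R, fun x => ⟨(hiso x).comp i.symm.isometry,
      hback _ (h1 x), ?_⟩, ?_, hper, ?_⟩
    · show dist (Φ x (i.symm 0)) (f 0) ≤ R
      rw [hi0]; exact h2 x
    · rintro x y hxy g ⟨e, n, hn⟩
      refine h3 x y hxy g ⟨i.trans (e.trans i.symm), n, fun z => ?_⟩
      have := hn (i z)
      simpa using this
    · rintro x g c ⟨hc, τ, hτ, hgc⟩ a v B
      by_contra hcon
      push Not at hcon
      have hgi : ∀ j : ℕ, g ^ j • c 0 = c (j * τ) := by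
        intro j
        induction j with
        | zero => simp
        | succ j ih =>
          rw [pow_succ', mul_smul, ih, hgc]
          congr 1
          push_cast
          ring
      have hv : v ≠ 0 := by
        rintro rfl
        obtain ⟨j, hj⟩ := exists_nat_gt (B + dist (Φ x (i.symm a)) (c 0))
        have k1 := hcon j (Nat.cast_nonneg j)
        rw [smul_zero, add_zero] at k1
        have k2 := dist_triangle (c j) (Φ x (i.symm a)) (c 0)
        rw [hc.dist_eq, Real.dist_eq, sub_zero, abs_of_nonneg (Nat.cast_nonneg j)] at k2
        linarith
      refine hper x g a (τ • v) (smul_ne_zero hτ.ne' hv)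
        ⟨dist (Φ x (i.symm a)) (c 0) + B, fun j => ?_⟩
      have k1 := hcon (j * τ) (by positivity)
      rw [← hgi j] at k1
      have k2 := dist_triangle (g ^ j • Φ x (i.symm a)) (g ^ j • c 0)
        (Φ x (i.symm (a + (j * τ : ℝ) • v)))
      rw [dist_smul] at k2
      rw [smul_smul]
      exact k2.trans (add_le_add le_rfl k1)

end Pool.Agent.Results.MP_140312_al.AperiodicFlats
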