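import Pool.Agent.Q216.PD.Final
import Pool.Agent.Q190.PD.TOR
import Pool.Agent.Q190.PD.REC
import Pool.Agent.Q184.PD.LIM
import Pool.Agent.Q26.PD.POW
import Pool.Agent.Q26.PD.REG
import Pool.Agent.Q68.PD.RK
import Pool.Agent.Q129.PD.UNI
import Pool.Agent.Y34.EL.All
import Pool.Agent.Y34.HB.WideT
import Pool.Agent.Y901.HB.Inv
import Pool.Agent.Y419.HB.Per
import Pool.Agent.Y514.HB.HPC
import Pool.Agent.TH60.FP.Cen
import Pool.Agent.TH60.FP.Sel
import Pool.Agent.TH60.FP.Bnd
import Pool.Agent.TH60.FP.Close
import Pool.Agent.TH60.FP.Strip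
import Pool.Agent.TH60.FP.Trans
import Pool.Agent.TH60.FP.Mid
import Pool.Agent.TH60.FP.Dist

/-!
# Groups acting geometrically on products of two CAT(0) spaces

Let `G` act by isometries on two unbounded proper CAT(0) spaces `X₁` and `X₂` such that the diagonal
action on `X₁ × X₂` is properly discontinuous and cocompact.  If one of the factors contains no flat
half-plane (for example if it is a tree or hyperbolic) then `G` contains `ℤ²`, whatever the other
factor is.  In general, if `G` contains no `ℤ²`, then every element fixes a point of one of the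
factors, all axes in `X₁` bound continuum many flat half-planes of `X₁`, and the elements with an
axis in `X₂` act on `X₁` as rotations: their fixed point sets are not empty and bounded and they
move the two ends of every axis such that they are no longer opposite.  Nothing is assumed on the
extension of geodesics.

Idea of the proof.  Suppose that `g` has an axis in `X₁` which bounds no flat half-plane.  An element
with axes in both factors translates a flat plane, and the closing theorem for flats with one period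
gives `ℤ²`.  So we may assume that `g` has a fixed point in `X₂`; then some powers `g ^ n` with
`n → ∞` converge to the identity on `X₂`.  Going out to infinity in `X₂` one finds (by cocompactness,
and because elements with small displacement have bounded order) an element `h` close to the identity
on a large ball of `X₁` without fixed points in `X₂`.  As the axis of `g` has rank one, `g ^ n h` has
no fixed point in `X₁` for large `n`.  If all these `g ^ n h` have fixed points in `X₂` then `h`,
their limit on `X₂`, has there wide invariant strips, and these, multiplied by a fixed point of `h`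
in `X₁`, give `ℤ²` again.  In the same way: if `g` has an axis in `X₁` and `k` an axis in `X₂`, then
the `w = g ^ n k` have axes in `X₂` with bounded translation lengths, so up to conjugation there are
only finitely many of them, their fixed point sets in `X₁` are bounded (otherwise there are wide
strips), and their displacement in `X₁` grows linearly with uniform constants.  An isometry with a
fixed point which moves a point `o` such that `d(o, w² o)` is almost `2 d(o, w o)` has its fixed
points far away; so `d(o, w² o) ≤ κ d(o, w o) + K` for some `κ < 2`.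
-/

set_option autoImplicit false

universe u v

namespace Pool.Agent.Results.MP_140312_al.ProductActions

open Set Metric Filter

/-- The inequality of Bruhat and Tits: a complete metric space is CAT(0) if and only if any two
points `p`, `q` have a midpoint `m` such that
`d(x, m)² ≤ (d(x, p)² + d(x, q)²) / 2 - d(p, q)² / 4` for all `x`. -/
def BruhatTits (X : Type u) [MetricSpace X] : Prop := ∀ p q : X, ∃ m : X, ∀ x : X,
  dist x m ^ 2 ≤ (dist x p ^ 2 + dist x q ^ 2) / 2 - dist p q ^ 2 / 4

/-- `X` is not empty and not bounded. -/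
def Unbounded (X : Type u) [MetricSpace X] : Prop :=
  Nonempty X ∧ ∀ (x : X) (r : ℝ), ∃ y : X, r ≤ dist x y

/-- The line `c` is an axis of `g`: it is an isometric embedding of the real line and `g` acts on it
as the translation by some `τ > 0`. -/
def IsAxis {X : Type u} [MetricSpace X] {G : Type v} [Group G] [MulAction G X] (g : G)
    (c : ℝ → X) : Prop :=
  Isometry c ∧ ∃ τ : ℝ, 0 < τ ∧ ∀ t, g • c t = c (t + τ)

/-- The flat half-planes of `X` bounded by the line `c`: the maps from the Euclidean half-plane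
`ℝ × [0, ∞)` to `X` which preserve distances and extend the parametrisation `c` of the boundary
line.  (Different maps have different images.) -/
def HalfPlanes {X : Type u} [MetricSpace X] (c : ℝ → X) : Set (ℝ × NNReal → X) :=
  {H | (∀ p q : ℝ × NNReal, dist (H p) (H q) ^ 2 = (p.1 - q.1) ^ 2 + ((p.2 : ℝ) - q.2) ^ 2) ∧
    ∀ t : ℝ, H (t, 0) = c t}

/-- The line `c` bounds continuum many flat half-planes of `X`. -/
def ManyHalfPlanes {X : Type u} [MetricSpace X] (c : ℝ → X) : Prop :=
  ∃ Φ : (ℕ → Bool) → (ℝ × NNReal → X), Function.Injective Φ ∧ ∀ x, Φ x ∈ HalfPlanes c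

/-- `X` contains no flat half-plane. -/
def NoHalfPlane (X : Type u) [MetricSpace X] : Prop := ∀ c : ℝ → X, HalfPlanes c = ∅

/-- `G` contains a subgroup isomorphic to `ℤ²`. -/
def ContainsZ2 (G : Type v) [Group G] : Prop :=
  ∃ φ : Multiplicative (ℤ × ℤ) →* G, Function.Injective φ

/-- The set of the fixed points of `g` in `X` is bounded. -/
def BoundedFix (X : Type u) [MetricSpace X] {G : Type v} [Group G] [MulAction G X] (g : G) : Prop :=
  ∃ R : ℝ, ∀ x y : X, g • x = x → g • y = y → dist x y ≤ R

/-- The properties of the factor `X₁` (there are elements with an axis in `X₁`; each axis bounds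
continuum many half-planes; an element with an axis in `X₂` has a bounded set of fixed points in
`X₁`, and it moves the ends of each axis `c` in `X₁` of an element of `G` such that they are no
longer opposite: `d(k c(t), c(-t)) ≤ κ t + K` for all `t ≥ 0`, for some `κ < 2`). -/
def Side (X₁ X₂ : Type u) [MetricSpace X₁] [MetricSpace X₂] (G : Type v) [Group G]
    [MulAction G X₁] [MulAction G X₂] : Prop :=
  (∃ (g : G) (c : ℝ → X₁), IsAxis g c) ∧
  (∀ (g : G) (c : ℝ → X₁), IsAxis g c → ManyHalfPlanes c) ∧
  (∀ k : G, (∃ c : ℝ → X₂, IsAxis k c) → BoundedFix X₁ k) ∧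
  ∀ (g k : G) (c : ℝ → X₁), IsAxis g c → (∃ c' : ℝ → X₂, IsAxis k c') →
    ∃ κ K : ℝ, κ < 2 ∧ ∀ t, 0 ≤ t → dist (k • c t) (c (-t)) ≤ κ * t + K

theorem noFix {X : Type u} [MetricSpace X] {G : Type v} [Group G] [MulAction G X]
    [IsIsometricSMul G X] {k : G} (h : ∃ c : ℝ → X, IsAxis k c) (x : X) : k • x ≠ x := by
  obtain ⟨c, hc, τ, hτ, ht⟩ := h
  exact Pool.Agent.Q216.PD.noFix_of_axis hτ ⟨hc, ht⟩ x

theorem side_of {X₁ X₂ : Type u} [MetricSpace X₁] [MetricSpace X₂] {G : Type v} [Group G]
    [MulAction G X₁] [MulAction G X₂] [IsIsometricSMul G X₂]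
    (h : Pool.Agent.Q216.PD.Sd X₁ X₂ G) : Side X₁ X₂ G := by
  obtain ⟨⟨g, τ, c, hτ, hc⟩, h2, h3, h4⟩ := h
  exact ⟨⟨g, c, hc.1, τ, hτ, hc.2⟩, fun g c ⟨hi, τ, hτ, hg⟩ => h2 g τ c hτ ⟨hi, hg⟩,
    fun k hk => h3 k (noFix hk), fun g k c ⟨hi, τ, hτ, hg⟩ hk => h4 g k τ c hτ ⟨hi, hg⟩ (noFix hk)⟩

/-- Let `G` act by isometries on the unbounded proper CAT(0) spaces `X₁` and `X₂` such that the
diagonal action on `X₁ × X₂` is properly discontinuous and cocompact.
(1) `G` contains `ℤ²`, or every element of `G` has a fixed point in `X₁` or in `X₂` and the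
properties `Side` hold for both factors.
(2) If one of the factors contains no flat half-plane then `G` contains `ℤ²`.
(3) If for every element `g` with a fixed point in `X₁` some power `g ^ n`, `n > 0`, has an unbounded
set of fixed points in `X₁`, then `G` contains `ℤ²`. -/
theorem result {X₁ X₂ : Type u} [MetricSpace X₁] [MetricSpace X₂] [ProperSpace X₁]
    [ProperSpace X₂] (h₁ : BruhatTits X₁) (h₂ : BruhatTits X₂) (hu₁ : Unbounded X₁)
    (hu₂ : Unbounded X₂) {G : Type v} [Group G] [MulAction G X₁] [MulAction G X₂]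
    [IsIsometricSMul G X₁] [IsIsometricSMul G X₂] [ProperlyDiscontinuousSMul G (X₁ × X₂)]
    (hcc : ∃ K : Set (X₁ × X₂), IsCompact K ∧ ∀ x : X₁ × X₂, ∃ g : G, g • x ∈ K) :
    (ContainsZ2 G ∨ ((∀ g : G, (∃ x : X₁, g • x = x) ∨ ∃ x : X₂, g • x = x) ∧
      Side X₁ X₂ G ∧ Side X₂ X₁ G)) ∧
    (NoHalfPlane X₁ ∨ NoHalfPlane X₂ → ContainsZ2 G) ∧
    ((∀ g : G, (∃ x : X₁, g • x = x) → ∃ n : ℕ, 0 < n ∧ ¬ BoundedFix X₁ (g ^ n)) →
      ContainsZ2 G) := by
  have hG : Pool.Agent.Q216.PD.PGeo X₁ X₂ G := Pool.Agent.Q216.PD.pgeo h₁ h₂ hcc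
  have hdd := Pool.Agent.TH60.FP.t_dd Pool.Agent.TH60.FP.t_strip
    (Pool.Agent.TH60.FP.t_trans Pool.Agent.TH60.FP.t_strip)
    (Pool.Agent.TH60.FP.t_mid Pool.Agent.TH60.FP.t_strip)
  have hcl := Pool.Agent.TH60.FP.t_close hdd Pool.Agent.TH60.FP.t_cen Pool.Agent.TH60.FP.t_sel
    (Pool.Agent.TH60.FP.t_bnd hdd Pool.Agent.TH60.FP.t_cen Pool.Agent.TH60.FP.t_park)
  have hwide := Pool.Agent.Y34.HB.WideT.t hcl
  have hreg := Pool.Agent.Q26.PD.t_reg hcl
  have hrec := Pool.Agent.Q190.PD.t_rec Pool.Agent.Q216.PD.t_ord Pool.Agent.Q190.PD.t_tor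
  have hlim := Pool.Agent.Q184.PD.t_lim2 Pool.Agent.Y901.HB.t hwide
  refine ⟨?_, ?_⟩
  · rcases Pool.Agent.Q216.PD.t_final Pool.Agent.Y34.EL.t_stew Pool.Agent.Y34.EL.t_cmp
      Pool.Agent.Y419.HB.t Pool.Agent.Y514.HB.t hwide hreg hrec hlim Pool.Agent.Q26.PD.t_pow
      Pool.Agent.Q68.PD.t_rk Pool.Agent.Q129.PD.t_uni X₁ X₂ G hG hu₁.2 hu₂.2 hu₁.1 hu₂.1 with
      h | ⟨a, b, c⟩
    · exact Or.inl h
    · exact Or.inr ⟨a, side_of b, side_of c⟩
  · obtain ⟨a, b⟩ := Pool.Agent.Q216.PD.t_cor Pool.Agent.Y34.EL.t_stew hwide hreg hrec hlim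
      Pool.Agent.Q26.PD.t_pow Pool.Agent.Q68.PD.t_rk X₁ X₂ G hG hu₁.2 hu₂.2 hu₁.1 hu₂.1
    refine ⟨a, fun hf => b fun g hg => ?_⟩
    obtain ⟨n, hn, hb⟩ := hf g hg
    refine ⟨n, hn, fun R => ?_⟩
    by_contra hcon
    push Not at hcon
    exact hb ⟨R, fun x y hx hy => (hcon x y hx hy).le⟩

end Pool.Agent.Results.MP_140312_al.ProductActions
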